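import Pool.Agent.Lib.EB40.FinalB

/-!
# Maps between level sets of the discriminant which lift to polynomials in the ordered roots

`EB40.pz z` is the polynomial `t^n + z_1 t^(n-1) + ... + z_n`, `EB40.SG n` the set of the `z` with
`z_1 = 0` and discriminant `1`, and `EB40.Ordered k` the set of the `k`-tuples `x` with sum `0` and
`∏_{a < b} (x_b - x_a) = 1`.

Theorem.  Let `k ≥ 3` and `n > k`.  If the roots of `p_(f(z))` are polynomials `g_1, ..., g_n` in
the ordered roots `x_1, ..., x_k` of `p_z`, then the map `f : SG_k → SG_n` is constant.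
-/

namespace Pool.Agent.Results.MP_eb1491_ag.OrderedLifts

open EB40

theorem result (k n : ℕ) (hk : 3 ≤ k) (hn : k < n) (f : SG k → SG n)
    (g : Fin n → MvPolynomial (Fin k) ℂ)
    (hfg : ∀ x ∈ Ordered k, ∀ z : SG k,
      pz (z : Fin k → ℂ) = ∏ i, (Polynomial.X - Polynomial.C (x i)) →
      pz (f z : Fin n → ℂ) =
        ∏ j, (Polynomial.X - Polynomial.C (MvPolynomial.eval x (g j))))
    (z w : SG k) : f z = f w :=
  maps_const hk hn f g hfg z w

end Pool.Agent.Results.MP_eb1491_ag.OrderedLifts
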